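import Mathlib

-- merged part: Pool.Agent.Work.MP_9fc12a_nt.Lin
section
/-!
Linear algebra of the Hankel matrices `[S(i+j,t)]` over a field.
-/

namespace Pool.Agent.Work.MP_9fc12a_nt

open Finset

variable {K : Type*} [Field K]

/-- the value `S(n,t)` -/
def sv (t : K) (n : ℕ) : K := Nat.ofDigits t (Nat.digits 2 n)

lemma sv_zero (t : K) : sv t 0 = 0 := by simp [sv, Nat.ofDigits]

lemma sv_rec (t : K) (n : ℕ) : sv t n = ((n % 2 : ℕ) : K) + t * sv t (n / 2) := by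
  rcases Nat.eq_zero_or_pos n with rfl | h
  · simp [sv, Nat.ofDigits]
  · unfold sv
    rw [Nat.digits_def' (by norm_num) h, Nat.ofDigits]

lemma sv_even (t : K) (n : ℕ) : sv t (2 * n) = t * sv t n := by
  rw [sv_rec]; simp

lemma sv_odd (t : K) (n : ℕ) : sv t (2 * n + 1) = 1 + t * sv t n := by
  rw [sv_rec]
  have h1 : (2 * n + 1) % 2 = 1 := by omega
  have h2 : (2 * n + 1) / 2 = n := by omega
  rw [h1, h2]; simp

/-- first difference -/
def dv (t : K) (n : ℕ) : K := sv t (n + 1) - sv t n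

lemma dv_even (t : K) (n : ℕ) : dv t (2 * n) = 1 := by
  unfold dv; rw [sv_odd, sv_even]; ring

lemma dv_odd (t : K) (n : ℕ) : dv t (2 * n + 1) = t * dv t n - 1 := by
  unfold dv
  rw [show 2 * n + 1 + 1 = 2 * (n + 1) by ring, sv_odd, sv_even]; ring

lemma sum_split (f : ℕ → K) (n : ℕ) :
    ∑ j ∈ range n, f j =
      ∑ j ∈ range ((n + 1) / 2), f (2 * j) + ∑ j ∈ range (n / 2), f (2 * j + 1) := by
  induction n with
  | zero => simp
  | succ n ih =>
    rw [sum_range_succ, ih]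
    rcases Nat.even_or_odd' n with ⟨m, rfl | rfl⟩
    · have h1 : (2 * m + 1 + 1) / 2 = m + 1 := by omega
      have h2 : (2 * m + 1) / 2 = m := by omega
      have h3 : (2 * m) / 2 = m := by omega
      rw [h1, h2, h3, sum_range_succ]; ring
    · have h1 : (2 * m + 1 + 1 + 1) / 2 = m + 1 := by omega
      have h2 : (2 * m + 1 + 1) / 2 = m + 1 := by omega
      have h3 : (2 * m + 1) / 2 = m := by omega
      rw [h1, h2, h3, sum_range_succ (fun j => f (2 * j + 1))]; ring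

/-- `q ν = 1 / (1 + z + … + z ^ ν)` with `z = t / 2` -/
def qv (t : K) (ν : ℕ) : K := 2 ^ ν * (t - 2) / (t ^ (ν + 1) - 2 ^ (ν + 1))

/-- the normalised ratio -/
def rv (t : K) (n : ℕ) : K :=
  if n ≤ 1 then 0 else t * rv t ((n + 1) / 2) + qv t (padicValNat 2 (n / 2))
termination_by n
decreasing_by omega

lemma rv_one (t : K) : rv t 1 = 0 := by rw [rv]; simp

lemma rv_rec (t : K) {n : ℕ} (h : 2 ≤ n) :
    rv t n = t * rv t ((n + 1) / 2) + qv t (padicValNat 2 (n / 2)) := by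
  rw [rv, if_neg (by omega)]

/-- the statement for the Hankel matrix of `sv` -/
def PP (t : K) (n : ℕ) : Prop :=
  ∀ (v : ℕ → K) (l : K), (∀ i < n, ∑ j ∈ range n, sv t (i + j) * v j = l) →
    l * (t - 2) = - rv t n * ∑ j ∈ range n, v j ∧
      (∑ j ∈ range n, v j = 0 → ∀ j < n, v j = 0)

/-- the statement for the Hankel matrix of `dv` -/
def QQ (t : K) (n : ℕ) : Prop :=
  ∀ (v : ℕ → K) (m : K), (∀ i < n, ∑ j ∈ range n, dv t (i + j) * v j = m) →
    t ^ padicValNat 2 n * ∑ j ∈ range n, v j = 2 ^ padicValNat 2 n * m ∧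
      (m = 0 → ∀ j < n, v j = 0)

lemma PP_one (t : K) : PP t 1 := by
  intro v l h
  have := h 0 (by norm_num)
  simp [sv_zero] at this
  refine ⟨by simp [← this, rv_one], fun hs j hj => ?_⟩
  have : j = 0 := by omega
  subst this
  simpa using hs

lemma of_even_odd {v : ℕ → K} {n : ℕ} (hx : ∀ j < (n + 1) / 2, v (2 * j) = 0)
    (hy : ∀ j < n / 2, v (2 * j + 1) = 0) : ∀ j < n, v j = 0 := by
  intro j hj
  rcases Nat.even_or_odd' j with ⟨m, rfl | rfl⟩
  · exact hx m (by omega)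
  · exact hy m (by omega)

lemma PP_step (t : K) (ht0 : t ≠ 0) (ht : ∀ k : ℕ, t ^ (k + 1) ≠ 2 ^ (k + 1)) {n : ℕ}
    (hn : 2 ≤ n) (hP : PP t ((n + 1) / 2)) (hQ : QQ t (n / 2)) : PP t n := by
  intro v l h
  set a := (n + 1) / 2 with ha
  set b := n / 2 with hb
  set ξ := ∑ j ∈ range a, v (2 * j) with hξ
  set η := ∑ j ∈ range b, v (2 * j + 1) with hη
  have hσ : ∑ j ∈ range n, v j = ξ + η := sum_split v n
  have hba : b ≤ a := by omega
  -- even rows
  have he : ∀ i < a, t * (∑ j ∈ range a, sv t (i + j) * v (2 * j)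
      + ∑ j ∈ range b, sv t (i + j) * v (2 * j + 1)) + η = l := by
    intro i hi
    rw [← h (2 * i) (by omega), sum_split (fun j => sv t (2 * i + j) * v j) n, mul_add,
      mul_sum, mul_sum, hη, add_assoc, ← sum_add_distrib]
    congr 1
    · refine sum_congr rfl fun j _ => ?_
      rw [show 2 * i + 2 * j = 2 * (i + j) by ring, sv_even]; ring
    · refine sum_congr rfl fun j _ => ?_
      rw [show 2 * i + (2 * j + 1) = 2 * (i + j) + 1 by ring, sv_odd]; ring
  -- odd rows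
  have ho : ∀ i < b, t * (∑ j ∈ range a, sv t (i + j) * v (2 * j)
      + ∑ j ∈ range b, sv t (i + j + 1) * v (2 * j + 1)) + ξ = l := by
    intro i hi
    rw [← h (2 * i + 1) (by omega), sum_split (fun j => sv t (2 * i + 1 + j) * v j) n, mul_add,
      mul_sum, mul_sum, hξ, add_right_comm, ← sum_add_distrib]
    congr 1
    · refine sum_congr rfl fun j _ => ?_
      rw [show 2 * i + 1 + 2 * j = 2 * (i + j) + 1 by ring, sv_odd]; ring
    · refine sum_congr rfl fun j _ => ?_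
      rw [show 2 * i + 1 + (2 * j + 1) = 2 * (i + j + 1) by ring, sv_even]; ring
  -- the vector `u = x + y`
  let u : ℕ → K := fun j => v (2 * j) + if j < b then v (2 * j + 1) else 0
  have hu : ∀ g : ℕ → K, ∑ j ∈ range a, g j * u j =
      ∑ j ∈ range a, g j * v (2 * j) + ∑ j ∈ range b, g j * v (2 * j + 1) := by
    intro g
    simp only [u, mul_add, sum_add_distrib, mul_ite, mul_zero]
    congr 1
    rw [← sum_filter]
    congr 1
    ext j; simp; omega
  have hus : ∑ j ∈ range a, u j = ξ + η := by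
    simpa using hu (fun _ => 1)
  obtain ⟨hP1, hP2⟩ := hP u ((l - η) / t) (by
    intro i hi
    rw [hu (fun j => sv t (i + j)), ← he i hi]
    field_simp
    ring)
  obtain ⟨hQ1, hQ2⟩ := hQ (fun j => v (2 * j + 1)) ((η - ξ) / t) (by
    intro i hi
    have h1 := he i (by omega)
    have h2 := ho i hi
    have h3 : ∑ j ∈ range b, dv t (i + j) * v (2 * j + 1) =
        ∑ j ∈ range b, sv t (i + j + 1) * v (2 * j + 1)
          - ∑ j ∈ range b, sv t (i + j) * v (2 * j + 1) := by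
      rw [← sum_sub_distrib]
      refine sum_congr rfl fun j _ => ?_
      unfold dv; ring
    rw [h3, eq_div_iff ht0]
    linear_combination h2 - h1)
  rw [hus] at hP1 hP2
  rw [← hη] at hQ1
  set ν := padicValNat 2 b with hν
  have hD : t ^ (ν + 1) - 2 ^ (ν + 1) ≠ 0 := sub_ne_zero.2 (ht ν)
  have hηe : η * (t ^ (ν + 1) - 2 ^ (ν + 1)) = - 2 ^ ν * (ξ + η) := by
    field_simp at hQ1
    rw [pow_succ, pow_succ]
    linear_combination hQ1
  refine ⟨?_, fun hs => ?_⟩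
  · rw [hσ, rv_rec t hn, ← ha, ← hb, ← hν, qv]
    field_simp at hP1 ⊢
    linear_combination (t ^ (ν + 1) - 2 ^ (ν + 1)) * hP1 + (t - 2) * hηe
  · rw [hσ] at hs
    have hη0 : η = 0 := by
      rw [hs, mul_zero] at hηe
      exact (mul_eq_zero.1 hηe).resolve_right hD
    have hξ0 : ξ = 0 := by rw [hη0] at hs; simpa using hs
    have hy := hQ2 (by rw [hη0, hξ0]; simp)
    have hx := hP2 hs
    refine of_even_odd (fun j hj => ?_) hy
    have := hx j hj
    simp only [u] at this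
    split_ifs at this with hjb
    · rw [hy j hjb] at this; simpa using this
    · simpa using this

lemma QQ_rows (t : K) {n : ℕ} (v : ℕ → K) (m : K)
    (h : ∀ i < n, ∑ j ∈ range n, dv t (i + j) * v j = m) :
    (∀ i < (n + 1) / 2, t * ∑ j ∈ range (n / 2), dv t (i + j) * v (2 * j + 1) =
        m - ∑ j ∈ range ((n + 1) / 2), v (2 * j) + ∑ j ∈ range (n / 2), v (2 * j + 1)) ∧
    (∀ i < n / 2, t * ∑ j ∈ range ((n + 1) / 2), dv t (i + j) * v (2 * j) =
        m + ∑ j ∈ range ((n + 1) / 2), v (2 * j) - ∑ j ∈ range (n / 2), v (2 * j + 1)) := by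
  constructor
  · intro i hi
    rw [← h (2 * i) (by omega), sum_split (fun j => dv t (2 * i + j) * v j) n]
    have h1 : ∑ j ∈ range ((n + 1) / 2), dv t (2 * i + 2 * j) * v (2 * j)
        = ∑ j ∈ range ((n + 1) / 2), v (2 * j) := by
      refine sum_congr rfl fun j _ => ?_
      rw [show 2 * i + 2 * j = 2 * (i + j) by ring, dv_even]; ring
    have h2 : ∑ j ∈ range (n / 2), dv t (2 * i + (2 * j + 1)) * v (2 * j + 1)
        = t * ∑ j ∈ range (n / 2), dv t (i + j) * v (2 * j + 1)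
          - ∑ j ∈ range (n / 2), v (2 * j + 1) := by
      rw [mul_sum, ← sum_sub_distrib]
      refine sum_congr rfl fun j _ => ?_
      rw [show 2 * i + (2 * j + 1) = 2 * (i + j) + 1 by ring, dv_odd]; ring
    rw [h1, h2]; ring
  · intro i hi
    rw [← h (2 * i + 1) (by omega), sum_split (fun j => dv t (2 * i + 1 + j) * v j) n]
    have h1 : ∑ j ∈ range ((n + 1) / 2), dv t (2 * i + 1 + 2 * j) * v (2 * j)
        = t * ∑ j ∈ range ((n + 1) / 2), dv t (i + j) * v (2 * j)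
          - ∑ j ∈ range ((n + 1) / 2), v (2 * j) := by
      rw [mul_sum, ← sum_sub_distrib]
      refine sum_congr rfl fun j _ => ?_
      rw [show 2 * i + 1 + 2 * j = 2 * (i + j) + 1 by ring, dv_odd]; ring
    have h2 : ∑ j ∈ range (n / 2), dv t (2 * i + 1 + (2 * j + 1)) * v (2 * j + 1)
        = ∑ j ∈ range (n / 2), v (2 * j + 1) := by
      refine sum_congr rfl fun j _ => ?_
      rw [show 2 * i + 1 + (2 * j + 1) = 2 * (i + j + 1) by ring, dv_even]; ring
    rw [h1, h2]; ring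

lemma val_two_mul {m : ℕ} (hm : m ≠ 0) : padicValNat 2 (2 * m) = padicValNat 2 m + 1 := by
  rw [padicValNat.mul (by norm_num) hm, padicValNat.self (by norm_num)]; ring

lemma val_odd (m : ℕ) : padicValNat 2 (2 * m + 1) = 0 :=
  padicValNat.eq_zero_of_not_dvd (by omega)

lemma QQ_even (t : K) (ht0 : t ≠ 0) (ht : ∀ k : ℕ, t ^ (k + 1) ≠ 2 ^ (k + 1)) {m : ℕ}
    (hm : m ≠ 0) (hQ : QQ t m) : QQ t (2 * m) := by
  intro v μ h
  obtain ⟨h1, h2⟩ := QQ_rows t v μ h
  have e1 : (2 * m + 1) / 2 = m := by omega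
  have e2 : (2 * m) / 2 = m := by omega
  have hσ := sum_split v (2 * m)
  rw [e1, e2] at h1 h2 hσ
  set ξ := ∑ j ∈ range m, v (2 * j) with hξ
  set η := ∑ j ∈ range m, v (2 * j + 1) with hη
  obtain ⟨y1, y2⟩ := hQ (fun j => v (2 * j + 1)) ((μ - ξ + η) / t) (by
    intro i hi
    rw [eq_div_iff ht0, ← h1 i hi]; ring)
  obtain ⟨x1, x2⟩ := hQ (fun j => v (2 * j)) ((μ + ξ - η) / t) (by
    intro i hi
    rw [eq_div_iff ht0, ← h2 i hi]; ring)
  rw [← hη] at y1
  rw [← hξ] at x1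
  rw [val_two_mul hm, hσ]
  set ν := padicValNat 2 m with hν
  field_simp at x1 y1
  refine ⟨?_, fun hμ => ?_⟩
  · rw [pow_succ, pow_succ]
    linear_combination x1 + y1
  · have hD : t ^ (ν + 1) - 2 ^ (ν + 1) ≠ 0 := sub_ne_zero.2 (ht ν)
    have hd : (ξ - η) * (t ^ (ν + 1) - 2 ^ (ν + 1)) = 0 := by
      rw [pow_succ, pow_succ]
      linear_combination x1 - y1
    have he : ξ - η = 0 := (mul_eq_zero.1 hd).resolve_right hD
    refine of_even_odd ?_ ?_
    · rw [e1]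
      refine x2 ?_
      rw [hμ, show 0 + ξ - η = ξ - η by ring, he, zero_div]
    · rw [e2]
      refine y2 ?_
      rw [hμ, show 0 - ξ + η = -(ξ - η) by ring, he, neg_zero, zero_div]

lemma QQ_odd (t : K) (ht0 : t ≠ 0) (ht : ∀ k : ℕ, t ^ (k + 1) ≠ 2 ^ (k + 1)) {m : ℕ}
    (hP : PP t (m + 1)) : QQ t (2 * m + 1) := by
  intro v μ h
  obtain ⟨h1, h2⟩ := QQ_rows t v μ h
  have e1 : (2 * m + 1 + 1) / 2 = m + 1 := by omega
  have e2 : (2 * m + 1) / 2 = m := by omega
  have hσ := sum_split v (2 * m + 1)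
  rw [e1, e2] at h1 h2 hσ
  set ξ := ∑ j ∈ range (m + 1), v (2 * j) with hξ
  set η := ∑ j ∈ range m, v (2 * j + 1) with hη
  have ht2 : t - 2 ≠ 0 := by
    have := ht 0
    simp only [zero_add, pow_one] at this
    exact sub_ne_zero.2 this
  -- the difference vector
  let w : ℕ → K := fun j =>
    (if j = 0 then 0 else v (2 * (j - 1) + 1)) - if j < m then v (2 * j + 1) else 0
  have hw : ∀ g : ℕ → K, ∑ j ∈ range (m + 1), g j * w j =
      ∑ j ∈ range m, (g (j + 1) - g j) * v (2 * j + 1) := by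
    intro g
    simp only [w, mul_sub, sum_sub_distrib, sub_mul]
    congr 1
    · rw [sum_range_succ']; simp
    · rw [sum_range_succ]
      simp only [lt_irrefl, if_false, mul_zero, add_zero]
      refine sum_congr rfl fun j hj => ?_
      rw [if_pos (mem_range.1 hj)]
  have hws : ∑ j ∈ range (m + 1), w j = 0 := by
    simpa using hw (fun _ => 1)
  obtain ⟨w1, w2⟩ := hP w ((μ - ξ + η) / t) (by
    intro i hi
    rw [hw (fun j => sv t (i + j)), eq_div_iff ht0, ← h1 i hi, mul_comm]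
    congr 1)
  have hw0 := w2 hws
  have hy : ∀ j < m, v (2 * j + 1) = 0 := by
    intro j
    induction j with
    | zero =>
      intro hj
      have := hw0 0 (by omega)
      simpa [w, hj] using this
    | succ j ih =>
      intro hj
      have := hw0 (j + 1) (by omega)
      have h0 := ih (by omega)
      simp only [w, Nat.add_eq_zero_iff, one_ne_zero, and_false, if_false, add_tsub_cancel_right,
        hj, if_true, h0] at this
      simpa using this
  have hη0 : η = 0 := sum_eq_zero fun j hj => hy j (mem_range.1 hj)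
  rw [hws, mul_zero] at w1
  have hc : (μ - ξ + η) / t = 0 := (mul_eq_zero.1 w1).resolve_right ht2
  have hξμ : ξ = μ := by
    rw [div_eq_zero_iff, hη0] at hc
    have := hc.resolve_right ht0
    linear_combination -this
  rw [val_odd, hσ]
  refine ⟨by rw [hξμ, hη0]; ring, fun hμ => ?_⟩
  refine of_even_odd ?_ ?_
  · rw [e1]
    have hrow : ∀ i < m + 1, ∑ j ∈ range (m + 1), sv t (i + j) * v (2 * j) =
        ∑ j ∈ range (m + 1), sv t (0 + j) * v (2 * j) := by
      intro i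
      induction i with
      | zero => intro _; rfl
      | succ i ih =>
        intro hi
        rw [← ih (by omega)]
        have h3 := h2 i (by omega)
        rw [hξμ, hμ, hη0] at h3
        simp only [add_zero, sub_zero, mul_eq_zero, ht0, false_or] at h3
        rw [← sub_eq_zero, ← sum_sub_distrib, ← h3]
        refine sum_congr rfl fun j _ => ?_
        unfold dv
        rw [show i + 1 + j = i + j + 1 by ring]; ring
    exact (hP (fun j => v (2 * j)) _ hrow).2 (by rw [← hξ, hξμ, hμ])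
  · rw [e2]; exact hy

lemma PP_QQ (t : K) (ht0 : t ≠ 0) (ht : ∀ k : ℕ, t ^ (k + 1) ≠ 2 ^ (k + 1)) (n : ℕ) :
    1 ≤ n → PP t n ∧ QQ t n := by
  induction n using Nat.strong_induction_on with
  | _ n ih =>
    intro hn
    have hP : PP t n := by
      rcases eq_or_lt_of_le hn with rfl | h2
      · exact PP_one t
      · exact PP_step t ht0 ht h2 (ih _ (by omega) (by omega)).1 (ih _ (by omega) (by omega)).2
    refine ⟨hP, ?_⟩
    rcases Nat.even_or_odd' n with ⟨m, rfl | rfl⟩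
    · exact QQ_even t ht0 ht (by omega) (ih _ (by omega) (by omega)).2
    · refine QQ_odd t ht0 ht ?_
      rcases Nat.eq_zero_or_pos m with rfl | hm
      · exact hP
      · exact (ih _ (by omega) (by omega)).1

/-- the Hankel matrix evaluated at `t` -/
def hk (t : K) (n : ℕ) : Matrix (Fin n) (Fin n) K := Matrix.of fun i j => sv t (i + j)

lemma PP_fin {t : K} {n : ℕ} (hP : PP t n) (v : Fin n → K) (l : K)
    (h : ∀ i, (hk t n).mulVec v i = l) :
    l * (t - 2) = - rv t n * ∑ j, v j ∧ (∑ j, v j = 0 → v = 0) := by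
  let v' : ℕ → K := fun j => if hj : j < n then v ⟨j, hj⟩ else 0
  have hs : ∀ g : ℕ → K, ∑ j ∈ range n, g j * v' j = ∑ j : Fin n, g j * v j := by
    intro g
    rw [Finset.sum_range]
    refine sum_congr rfl fun j _ => ?_
    simp [v']
  have hs1 : ∑ j ∈ range n, v' j = ∑ j, v j := by simpa using hs (fun _ => 1)
  obtain ⟨h1, h2⟩ := hP v' l (by
    intro i hi
    rw [hs (fun j => sv t (i + j)), ← h ⟨i, hi⟩]
    simp [hk, Matrix.mulVec, dotProduct])
  rw [hs1] at h1 h2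
  refine ⟨h1, fun h0 => funext fun j => ?_⟩
  have := h2 h0 j j.2
  simpa [v'] using this

/-- The determinant vanishes exactly when the normalised ratio does. -/
theorem det_eq_zero_iff (t : K) (ht0 : t ≠ 0) (ht : ∀ k : ℕ, t ^ (k + 1) ≠ 2 ^ (k + 1))
    {n : ℕ} (hn : 1 ≤ n) : (hk t n).det = 0 ↔ rv t n = 0 := by
  have hP := (PP_QQ t ht0 ht n hn).1
  have ht2 : t - 2 ≠ 0 := by
    have := ht 0
    simp only [zero_add, pow_one] at this
    exact sub_ne_zero.2 this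
  rw [← Matrix.exists_mulVec_eq_zero_iff]
  constructor
  · rintro ⟨v, hv, h⟩
    obtain ⟨h1, h2⟩ := PP_fin hP v 0 (fun i => by rw [h]; rfl)
    have hs : ∑ j, v j ≠ 0 := fun h0 => hv (h2 h0)
    rw [zero_mul] at h1
    have := (mul_eq_zero.1 h1.symm).resolve_right hs
    simpa using this
  · intro hr
    let L : ((Fin n → K) × K) →ₗ[K] ((Fin n → K) × K) :=
      { toFun := fun p => ((hk t n).mulVec p.1 - fun _ => p.2, ∑ j, p.1 j)
        map_add' := by
          intro p q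
          ext i
          · simp [Matrix.mulVec_add]; ring
          · simp [sum_add_distrib]
        map_smul' := by
          intro c p
          ext i
          · simp [Matrix.mulVec_smul, mul_sub]
          · simp [mul_sum] }
    have hinj : Function.Injective L := by
      rw [injective_iff_map_eq_zero]
      rintro ⟨v, l⟩ h
      have h1 : (hk t n).mulVec v - (fun _ => l) = 0 := congrArg Prod.fst h
      have h2 : ∑ j, v j = 0 := congrArg Prod.snd h
      obtain ⟨p1, p2⟩ := PP_fin hP v l (fun i => by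
        have := congrFun h1 i
        simpa [sub_eq_zero] using this)
      rw [h2, mul_zero] at p1
      have hl : l = 0 := (mul_eq_zero.1 p1).resolve_right ht2
      rw [p2 h2, hl]; rfl
    have hsurj : Function.Surjective L := LinearMap.injective_iff_surjective.1 hinj
    obtain ⟨⟨v, l⟩, h⟩ := hsurj (0, 1)
    have h1 : (hk t n).mulVec v - (fun _ => l) = 0 := congrArg Prod.fst h
    have h2 : ∑ j, v j = 1 := congrArg Prod.snd h
    have h3 : ∀ i, (hk t n).mulVec v i = l := fun i => by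
      have := congrFun h1 i
      simpa [sub_eq_zero] using this
    obtain ⟨p1, -⟩ := PP_fin hP v l h3
    rw [hr, neg_zero, zero_mul] at p1
    have hl : l = 0 := (mul_eq_zero.1 p1).resolve_right ht2
    refine ⟨v, ?_, funext fun i => by rw [h3 i, hl]; rfl⟩
    rintro rfl
    simp at h2

end Pool.Agent.Work.MP_9fc12a_nt
end

-- merged part: Pool.Agent.Work.MP_9fc12a_nt.Bound
section
/-!
The normalised ratio does not vanish for `‖t‖ ≥ (3 + √5) / 2`, and has real zeros near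
`-(3 + √5) / 2` along an explicit sequence.
-/

namespace Pool.Agent.Work.MP_9fc12a_nt

open Finset

lemma M_facts : ∃ M : ℝ, M = (3 + √5) / 2 ∧ M ^ 2 = 3 * M - 1 ∧ 2.618 < M ∧ M < 2.619 := by
  have h5 : √5 ^ 2 = 5 := Real.sq_sqrt (by norm_num)
  have h1 : (2.236 : ℝ) < √5 := Real.lt_sqrt_of_sq_lt (by norm_num)
  have h2 : √5 < (2.238 : ℝ) := by
    rw [Real.sqrt_lt' (by norm_num)]; norm_num
  refine ⟨_, rfl, ?_, by linarith only [h1], by linarith only [h2]⟩
  nlinarith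

section
variable {K : Type*} [NormedField K]

lemma pow_ne_of_norm (h2 : ‖(2 : K)‖ = 2) {t : K} (ht : 2 < ‖t‖) (k : ℕ) :
    t ^ (k + 1) ≠ 2 ^ (k + 1) := by
  intro h
  have := congrArg norm h
  rw [norm_pow, norm_pow, h2] at this
  exact absurd this (ne_of_gt (pow_lt_pow_left₀ ht (by norm_num) (by omega)))

lemma qv_zero {t : K} (h : t - 2 ≠ 0) : qv t 0 = 1 := by
  simp only [qv, pow_zero, zero_add, pow_one, one_mul]
  exact div_self h

lemma qv_one {t : K} (h : t - 2 ≠ 0) (h' : t + 2 ≠ 0) : qv t 1 = 2 / (t + 2) := by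
  have : t ^ (1 + 1) - 2 ^ (1 + 1) = (t - 2) * (t + 2) := by ring
  rw [qv, this]; field_simp

end

lemma norm_qv_le {t : ℂ} (ht : 2 < ‖t‖) (ν : ℕ) {c : ℝ} (hc0 : 0 ≤ c)
    (hc : ‖t‖ / 2 + 1 ≤ c * ((‖t‖ / 2) ^ (ν + 1) - 1)) : ‖qv t ν‖ ≤ c := by
  have h2 : ‖(2 : ℂ)‖ = 2 := by simp
  have hlt : (2 : ℝ) ^ (ν + 1) < ‖t‖ ^ (ν + 1) := pow_lt_pow_left₀ ht (by norm_num) (by omega)
  have hden : ‖t‖ ^ (ν + 1) - 2 ^ (ν + 1) ≤ ‖t ^ (ν + 1) - 2 ^ (ν + 1)‖ := by
    have := norm_sub_norm_le (t ^ (ν + 1)) (2 ^ (ν + 1))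
    rwa [norm_pow, norm_pow, h2] at this
  have hnum : ‖t - 2‖ ≤ ‖t‖ + 2 := by
    have := norm_sub_le t 2
    rwa [h2] at this
  rw [qv, norm_div, norm_mul, norm_pow, h2, div_le_iff₀ (by linarith only [hlt, hden])]
  have hp : (0 : ℝ) < 2 ^ ν := by positivity
  calc 2 ^ ν * ‖t - 2‖ ≤ 2 ^ ν * (‖t‖ + 2) := by gcongr
    _ = 2 ^ (ν + 1) * (‖t‖ / 2 + 1) := by ring
    _ ≤ 2 ^ (ν + 1) * (c * ((‖t‖ / 2) ^ (ν + 1) - 1)) := by gcongr
    _ = c * (‖t‖ ^ (ν + 1) - 2 ^ (ν + 1)) := by rw [div_pow]; field_simp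
    _ ≤ _ := by gcongr

theorem rv_ne_zero {t : ℂ} (ht : (3 + √5) / 2 ≤ ‖t‖) {n : ℕ} (hn : 2 ≤ n) : rv t n ≠ 0 := by
  obtain ⟨M, hM, hM2, hMl, hMu⟩ := M_facts
  rw [← hM] at ht
  have h2 : ‖(2 : ℂ)‖ = 2 := by simp
  have hT : 2 < ‖t‖ := by linarith only [ht, hMl, hMu]
  have htm : t - 2 ≠ 0 := by
    intro h
    rw [sub_eq_zero] at h
    rw [h, h2] at hT; exact lt_irrefl _ hT
  have hp2 : ‖t‖ - 2 ≤ ‖t + 2‖ := by
    have := norm_sub_norm_le t (-2)
    rwa [norm_neg, h2, sub_neg_eq_add] at this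
  have hp2' : 0 < ‖t + 2‖ := by linarith only [ht, hMl, hMu, hp2]
  have htp : t + 2 ≠ 0 := norm_pos_iff.1 hp2'
  have hq0 := qv_zero htm
  have hq1 := qv_one htm htp
  have hq1n : ‖qv t 1‖ = 2 / ‖t + 2‖ := by rw [hq1, norm_div, h2]
  have hr2 : rv t 2 = 1 := by
    rw [rv_rec t le_rfl]; norm_num [rv_one, hq0]
  have hρ : 1.309 ≤ ‖t‖ / 2 := by linarith only [ht, hMl]
  have hq2 : ‖qv t 2‖ ≤ 1.87 := by
    clear * - t hT M hM2 hρ hMl hMu
    refine norm_qv_le hT 2 (by norm_num) ?_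
    set ρ := ‖t‖ / 2
    have : 1.7134 ≤ ρ ^ 2 := by linarith only [hM2, hρ, hMl, hMu, mul_pos_of_neg_of_neg (Mathlib.Tactic.Linarith.sub_neg_of_lt hMl) (Mathlib.Tactic.Linarith.sub_neg_of_lt hMl), mul_pos_of_neg_of_neg (Mathlib.Tactic.Linarith.sub_neg_of_lt hMl) (Mathlib.Tactic.Linarith.sub_neg_of_lt hMu), mul_nonneg_of_nonpos_of_nonpos (Mathlib.Tactic.Linarith.sub_nonpos_of_le hρ) (Mathlib.Tactic.Linarith.sub_nonpos_of_le hρ)]
    (refine le_of_not_gt fun h_nl => ?_; linarith only [h_nl, hM2, this, hρ, hMl, hMu, mul_nonneg_of_nonpos_of_nonpos (Mathlib.Tactic.Linarith.sub_nonpos_of_le (sq_nonneg ((1 : ℝ) * ρ))) (Mathlib.Tactic.Linarith.sub_nonpos_of_le hρ), mul_pos_of_neg_of_neg (Mathlib.Tactic.Linarith.sub_neg_of_lt hMl) (Mathlib.Tactic.Linarith.sub_neg_of_lt hMl), mul_pos_of_neg_of_neg (Mathlib.Tactic.Linarith.sub_neg_of_lt hMl) (Mathlib.Tactic.Linarith.sub_neg_of_lt hMu), mul_pos_of_neg_of_neg (Mathlib.Tactic.Linarith.sub_neg_of_lt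 hMl) (Mathlib.Tactic.Linarith.sub_neg_of_lt h_nl), mul_pos_of_neg_of_neg (Mathlib.Tactic.Linarith.sub_neg_of_lt hMu) (Mathlib.Tactic.Linarith.sub_neg_of_lt h_nl), mul_nonneg_of_nonpos_of_nonpos (Mathlib.Tactic.Linarith.sub_nonpos_of_le hρ) (Mathlib.Tactic.Linarith.sub_nonpos_of_le hρ)])
  have hq3 : ∀ ν, 3 ≤ ν → ‖qv t ν‖ ≤ 1.6 := by
    clear * - t hT M hMl hMu hρ n hM2
    intro ν hν
    refine norm_qv_le hT ν (by norm_num) ?_
    set ρ := ‖t‖ / 2
    have h1 : ρ ^ 4 ≤ ρ ^ (ν + 1) := pow_le_pow_right₀ (by linarith only [hMl, hMu, hρ]) (by omega)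
    have h3 : 1.7134 ≤ ρ ^ 2 := by linarith only [hM2, hρ, hMl, hMu, mul_pos_of_neg_of_neg (Mathlib.Tactic.Linarith.sub_neg_of_lt hMl) (Mathlib.Tactic.Linarith.sub_neg_of_lt hMl), mul_pos_of_neg_of_neg (Mathlib.Tactic.Linarith.sub_neg_of_lt hMl) (Mathlib.Tactic.Linarith.sub_neg_of_lt hMu), mul_nonneg_of_nonpos_of_nonpos (Mathlib.Tactic.Linarith.sub_nonpos_of_le hρ) (Mathlib.Tactic.Linarith.sub_nonpos_of_le hρ)]
    have h4 : 2.24 ≤ ρ ^ 3 := by linarith only [hMl, hMu, h3, hρ, mul_nonneg_of_nonpos_of_nonpos (Mathlib.Tactic.Linarith.sub_nonpos_of_le (sq_nonneg ((1 : ℝ) * ρ))) (Mathlib.Tactic.Linarith.sub_nonpos_of_le hρ)]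
    have h5 : 2.24 * ρ ≤ ρ ^ 4 := by (refine le_of_not_gt fun h_nl => ?_; linarith only [h_nl, hM2, h3, hMl, hMu, hρ, mul_nonneg_of_nonpos_of_nonpos (Mathlib.Tactic.Linarith.sub_nonpos_of_le (sq_nonneg ((1 : ℝ) * ρ))) (Mathlib.Tactic.Linarith.sub_nonpos_of_le h3), mul_pos_of_neg_of_neg (Mathlib.Tactic.Linarith.sub_neg_of_lt hMl) (Mathlib.Tactic.Linarith.sub_neg_of_lt hMl), mul_pos_of_neg_of_neg (Mathlib.Tactic.Linarith.sub_neg_of_lt hMl) (Mathlib.Tactic.Linarith.sub_neg_of_lt hMu), mul_pos_of_neg_of_neg (Mathlib.Tactic.Linarith.sub_neg_of_lt hMl) (Mathlib.Tactic.Linarith.sub_neg_of_lt h_nl), mul_pos_of_neg_of_neg (Mathlib.Tactic.Linarith.sub_neg_of_lt hMu) (Mathlib.Tactic.Linarith.sub_neg_of_lt h_nl), mul_nonneg_of_nonpos_of_nonpos (Mathlib.Tactic.Linarith.sub_nonpos_of_le hρ) (Mathlib.Tactic.Linarith.sub_nonpos_of_le hρ)])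
    linarith only [hMl, hMu, hρ, h1, h5]
  -- the weight for state one
  obtain ⟨β1, hb1, hb2, hb3, hb4⟩ : ∃ β : ℝ, 1 ≤ β ∧ β ≤ 1.1 ∧ 1 + ‖qv t 2‖ ≤ ‖t‖ * β ∧
      β + ‖qv t 1‖ ≤ ‖t‖ * (M - 1) := by
    clear * - t M ht hMl hMu hq2 hq1n hp2' hM2 h2 htm hp2
    rcases le_or_gt 1 ‖t + 2‖ with h | h
    · refine ⟨1.1, by norm_num, le_rfl, by linarith only [ht, hMl, hMu, hq2], ?_⟩
      have : ‖qv t 1‖ ≤ 2 := by
        rw [hq1n, div_le_iff₀ hp2']; linarith only [h]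
      linarith only [ht, hM2, hMl, hMu, this, mul_nonneg_of_nonpos_of_nonpos (Mathlib.Tactic.Linarith.sub_nonpos_of_le ht) (le_of_lt (Mathlib.Tactic.Linarith.sub_neg_of_lt hMl))]
    · refine ⟨1, le_rfl, by norm_num, ?_, ?_⟩
      · have e : t ^ (2 + 1) - 2 ^ (2 + 1) = (t - 2) * (t ^ 2 + 2 * (t + 2)) := by ring
        have hd : ‖t‖ ^ 2 - 2 * ‖t + 2‖ ≤ ‖t ^ 2 + 2 * (t + 2)‖ := by
          have := norm_sub_norm_le (t ^ 2) (-(2 * (t + 2)))
          rwa [norm_neg, norm_mul, h2, sub_neg_eq_add, norm_pow] at this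
        have hd' : 4 ≤ ‖t ^ 2 + 2 * (t + 2)‖ := by linarith only [ht, hM2, hMl, hMu, h, hd, mul_nonneg_of_nonpos_of_nonpos (Mathlib.Tactic.Linarith.sub_nonpos_of_le (sq_nonneg M)) (Mathlib.Tactic.Linarith.sub_nonpos_of_le ht), mul_nonneg_of_nonpos_of_nonpos (Mathlib.Tactic.Linarith.sub_nonpos_of_le ht) (Mathlib.Tactic.Linarith.sub_nonpos_of_le ht), Mathlib.Tactic.Linarith.mul_zero_eq (Mathlib.Tactic.Linarith.sub_nonpos_of_le ht) (sub_eq_zero_of_eq hM2)]
        have hne : t ^ 2 + 2 * (t + 2) ≠ 0 := norm_pos_iff.1 (by linarith only [hMl, hMu, hd'])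
        have : qv t 2 = 4 / (t ^ 2 + 2 * (t + 2)) := by
          rw [qv, e]; field_simp; norm_num
        have h4 : ‖qv t 2‖ ≤ 1 := by
          rw [this, norm_div, div_le_one (by linarith only [hMl, hMu, hd'])]
          simpa using hd'
        linarith only [ht, hMl, hMu, h4]
      · have : ‖qv t 1‖ ≤ 2 * (M - 1) := by
          rw [hq1n, div_le_iff₀ hp2']; linarith only [ht, hM2, hp2, hMl, mul_nonneg_of_nonpos_of_nonpos (Mathlib.Tactic.Linarith.sub_nonpos_of_le (sq_nonneg M)) (Mathlib.Tactic.Linarith.sub_nonpos_of_le hp2), mul_nonneg_of_nonpos_of_nonpos (Mathlib.Tactic.Linarith.sub_nonpos_of_le ht) (le_of_lt (Mathlib.Tactic.Linarith.sub_neg_of_lt hMl)), Mathlib.Tactic.Linarith.zero_mul_eq (sub_eq_zero_of_eq hM2) (Mathlib.Tactic.Linarith.sub_nonpos_of_le hp2), mul_nonneg_of_nonpos_of_nonpos (le_of_lt (Mathlib.Tactic.Linarith.sub_neg_of_lt hMl)) (Mathlib.Tactic.Linarith.sub_nonpos_of_le hp2)]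
        linarith only [hM2, this, ht, hMl, mul_nonneg_of_nonpos_of_nonpos (Mathlib.Tactic.Linarith.sub_nonpos_of_le (sq_nonneg M)) (Mathlib.Tactic.Linarith.sub_nonpos_of_le ht), Mathlib.Tactic.Linarith.mul_zero_eq (Mathlib.Tactic.Linarith.sub_nonpos_of_le ht) (sub_eq_zero_of_eq hM2), mul_nonneg_of_nonpos_of_nonpos (Mathlib.Tactic.Linarith.sub_nonpos_of_le ht) (le_of_lt (Mathlib.Tactic.Linarith.sub_neg_of_lt hMl))]
  let β : ℕ → ℝ := fun ν => if ν = 0 then M - 1 else if ν = 1 then β1 else 1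
  have hβ1 : ∀ ν, 1 ≤ β ν := by
    clear * - β M β1 hMl hMu hb1
    intro ν; simp only [β]; split_ifs <;> linarith only [hMl, hMu, hb1]
  have hstep0 : ∀ ν, β 0 + ‖qv t 0‖ ≤ ‖t‖ * β ν := by
    clear * - β hβ1 t hq0 M β1 ht hM2
    intro ν
    have := hβ1 ν
    simp only [hq0, norm_one]
    have e : β 0 = M - 1 := by simp [β]
    rw [e]; linarith only [ht, this, hM2, mul_nonneg_of_nonpos_of_nonpos (Mathlib.Tactic.Linarith.sub_nonpos_of_le (sq_nonneg M)) (Mathlib.Tactic.Linarith.sub_nonpos_of_le this), mul_nonneg_of_nonpos_of_nonpos (Mathlib.Tactic.Linarith.sub_nonpos_of_le ht) (Mathlib.Tactic.Linarith.sub_nonpos_of_le this), Mathlib.Tactic.Linarith.zero_mul_eq (sub_eq_zero_of_eq hM2) (Mathlib.Tactic.Linarith.sub_nonpos_of_le this)]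
  have hstep1 : ∀ ν, β (ν + 1) + ‖qv t (ν + 1)‖ ≤ ‖t‖ * β ν := by
    clear * - β t β1 M hb4 hb3 hq3 n ht hMl hMu
    intro ν
    rcases ν with _ | _ | ν
    · simpa [β] using hb4
    · simpa [β] using hb3
    · have := hq3 (ν + 1 + 1 + 1) (by omega)
      simp only [β, Nat.add_eq_zero_iff, one_ne_zero, and_false, if_false, Nat.add_eq_right,
        mul_one]
      linarith only [ht, hMl, hMu, this]
  have key : ∀ n, 3 ≤ n → β (padicValNat 2 (n / 2)) ≤ ‖rv t n‖ := by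
    intro n
    induction n using Nat.strong_induction_on with
    | _ n ih =>
      intro hn
      by_cases h3 : n = 3
      · subst h3
        rw [rv_rec t (by norm_num)]
        norm_num [hr2, hq0, β]
        have := norm_sub_norm_le t (-1)
        rw [norm_neg, norm_one, sub_neg_eq_add] at this
        linarith only [ht, this]
      by_cases h4 : n = 4
      · subst h4
        have hv : padicValNat 2 2 = 1 := padicValNat.self (by norm_num)
        rw [rv_rec t (by norm_num)]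
        norm_num [hr2, hv, β]
        have e : t + qv t 1 = ((t + 1) ^ 2 + 1) / (t + 2) := by
          rw [hq1]; field_simp; ring
        have hs : ‖t‖ - 1 ≤ ‖t + 1‖ := by
          have := norm_sub_norm_le t (-1)
          rwa [norm_neg, norm_one, sub_neg_eq_add] at this
        have hw : ‖t + 1‖ ^ 2 - 1 ≤ ‖(t + 1) ^ 2 + 1‖ := by
          have := norm_sub_norm_le ((t + 1) ^ 2) (-1)
          rwa [norm_neg, norm_one, sub_neg_eq_add, norm_pow] at this
        have hw2 : ‖t‖ * ‖t + 2‖ ≤ ‖(t + 1) ^ 2 + 1‖ + 2 := by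
          have := norm_sub_le ((t + 1) ^ 2 + 1) 2
          rwa [h2, show (t + 1) ^ 2 + 1 - 2 = t * (t + 2) by ring, norm_mul] at this
        have hw3 : 1.617 ≤ ‖(t + 1) ^ 2 + 1‖ := by clear * - t M ht hM2 hw hs hMl hMu; linarith only [hM2, hw, ht, hs, hMl, hMu, mul_nonneg_of_nonpos_of_nonpos (Mathlib.Tactic.Linarith.sub_nonpos_of_le (sq_nonneg M)) (Mathlib.Tactic.Linarith.sub_nonpos_of_le ht), mul_nonneg_of_nonpos_of_nonpos (Mathlib.Tactic.Linarith.sub_nonpos_of_le (sq_nonneg M)) (Mathlib.Tactic.Linarith.sub_nonpos_of_le hs), mul_nonneg_of_nonpos_of_nonpos (Mathlib.Tactic.Linarith.sub_nonpos_of_le ht) (Mathlib.Tactic.Linarith.sub_nonpos_of_le ht), Mathlib.Tactic.Linarith.mul_zero_eq (Mathlib.Tactic.Linarith.sub_nonpos_of_le ht) (sub_eq_zero_of_eq hM2), mul_nonneg_of_nonpos_of_nonpos (Mathlib.Tactic.Linarith.sub_nonpos_of_le ht) (le_of_lt (Mathlib.Tactic.Linarith.sub_neg_of_lt hMl)), mul_nonneg_of_nonpos_of_nonpos (Mathlib.Tactic.Linarith.sub_nonpos_of_le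 ht) (Mathlib.Tactic.Linarith.sub_nonpos_of_le hs), Mathlib.Tactic.Linarith.zero_mul_eq (sub_eq_zero_of_eq hM2) (Mathlib.Tactic.Linarith.sub_nonpos_of_le hs), mul_pos_of_neg_of_neg (Mathlib.Tactic.Linarith.sub_neg_of_lt hMl) (Mathlib.Tactic.Linarith.sub_neg_of_lt hMl), mul_pos_of_neg_of_neg (Mathlib.Tactic.Linarith.sub_neg_of_lt hMl) (Mathlib.Tactic.Linarith.sub_neg_of_lt hMu), mul_nonneg_of_nonpos_of_nonpos (le_of_lt (Mathlib.Tactic.Linarith.sub_neg_of_lt hMl)) (Mathlib.Tactic.Linarith.sub_nonpos_of_le hs), mul_nonneg_of_nonpos_of_nonpos (Mathlib.Tactic.Linarith.sub_nonpos_of_le hs) (Mathlib.Tactic.Linarith.sub_nonpos_of_le hs)]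
        rw [e, norm_div, le_div_iff₀ hp2']
        clear * - β1 t M ht hM2 hw2 hw3 hb2 hMl hp2 hb1 hMu
        (refine le_of_not_gt fun h_nl => ?_; linarith only [h_nl, hM2, hb2, hw2, hw3, ht, hMl, hp2, hMu, mul_nonneg_of_nonpos_of_nonpos (Mathlib.Tactic.Linarith.sub_nonpos_of_le (sq_nonneg M)) (Mathlib.Tactic.Linarith.sub_nonpos_of_le ht), mul_nonneg_of_nonpos_of_nonpos (Mathlib.Tactic.Linarith.sub_nonpos_of_le ht) (Mathlib.Tactic.Linarith.sub_nonpos_of_le ht), Mathlib.Tactic.Linarith.mul_zero_eq (Mathlib.Tactic.Linarith.sub_nonpos_of_le ht) (sub_eq_zero_of_eq hM2), mul_nonneg_of_nonpos_of_nonpos (Mathlib.Tactic.Linarith.sub_nonpos_of_le ht) (le_of_lt (Mathlib.Tactic.Linarith.sub_neg_of_lt hMl)), mul_nonneg_of_nonpos_of_nonpos (Mathlib.Tactic.Linarith.sub_nonpos_of_le ht) (Mathlib.Tactic.Linarith.sub_nonpos_of_le hp2), mul_nonneg_of_nonpos_of_nonpos (Mathlib.Tactic.Linarith.sub_nonpos_of_le ht) (Mathlib.Tactic.Linarith.sub_nonpos_of_le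 hb2), mul_pos_of_neg_of_neg (Mathlib.Tactic.Linarith.sub_neg_of_lt hMl) (Mathlib.Tactic.Linarith.sub_neg_of_lt hMl), mul_pos_of_neg_of_neg (Mathlib.Tactic.Linarith.sub_neg_of_lt hMl) (Mathlib.Tactic.Linarith.sub_neg_of_lt hMu), mul_nonneg_of_nonpos_of_nonpos (le_of_lt (Mathlib.Tactic.Linarith.sub_neg_of_lt hMl)) (Mathlib.Tactic.Linarith.sub_nonpos_of_le hp2), mul_nonneg_of_nonpos_of_nonpos (le_of_lt (Mathlib.Tactic.Linarith.sub_neg_of_lt hMl)) (Mathlib.Tactic.Linarith.sub_nonpos_of_le hb2), mul_pos_of_neg_of_neg (Mathlib.Tactic.Linarith.sub_neg_of_lt hMl) (Mathlib.Tactic.Linarith.sub_neg_of_lt h_nl), mul_pos_of_neg_of_neg (Mathlib.Tactic.Linarith.sub_neg_of_lt hMu) (Mathlib.Tactic.Linarith.sub_neg_of_lt h_nl), mul_nonneg_of_nonpos_of_nonpos (Mathlib.Tactic.Linarith.sub_nonpos_of_le hp2) (Mathlib.Tactic.Linarith.sub_nonpos_of_le hb2)])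
      have ha := ih ((n + 1) / 2) (by omega) (by omega)
      have hlow : ‖t‖ * β (padicValNat 2 ((n + 1) / 2 / 2)) - ‖qv t (padicValNat 2 (n / 2))‖
          ≤ ‖rv t n‖ := by
        rw [rv_rec t (n := n) (by omega)]
        have := norm_sub_norm_le (t * rv t ((n + 1) / 2)) (-qv t (padicValNat 2 (n / 2)))
        rw [norm_neg, sub_neg_eq_add, norm_mul] at this
        have h' : ‖t‖ * β (padicValNat 2 ((n + 1) / 2 / 2)) ≤ ‖t‖ * ‖rv t ((n + 1) / 2)‖ := by
          gcongr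
        linarith only [this, h']
      rcases Nat.even_or_odd' (n / 2) with ⟨m, hm | hm⟩
      · have e1 : (n + 1) / 2 / 2 = m := by omega
        rw [hm, val_two_mul (by omega)]
        rw [e1, hm, val_two_mul (by omega)] at hlow
        clear * - β m t n hlow hstep1
        linarith [hstep1 (padicValNat 2 m)]
      · rw [hm, val_odd]
        rw [hm, val_odd] at hlow
        linarith only [hlow, hstep0, hstep0 (padicValNat 2 ((n + 1) / 2 / 2))]
  rcases eq_or_lt_of_le hn with rfl | h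
  · rw [hr2]; exact one_ne_zero
  · have := key n h
    have h1 := hβ1 (padicValNat 2 (n / 2))
    exact norm_pos_iff.1 (by linarith only [hMl, hMu, this, h1])

/-! ### sharpness -/

lemma seq_inv (a : ℕ → ℕ) (h0 : a 0 = 5)
    (hs : ∀ k, a (k + 1) = if k % 4 ≤ 1 then 2 * a k else 2 * a k - 1) (k : ℕ) :
    5 ≤ a k ∧ (k % 4 = 0 → a k % 2 = 1) ∧ (k % 4 = 1 → a k % 4 = 2) ∧
      (k % 4 = 2 → a k % 2 = 0) ∧ (k % 4 = 3 → a k % 4 = 3) := by
  induction k with
  | zero => simp [h0]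
  | succ k ih =>
    rw [hs]
    split_ifs <;> omega

lemma val_mod_four {m : ℕ} (h : m % 4 = 2) : padicValNat 2 m = 1 := by
  obtain ⟨j, rfl⟩ : ∃ j, m = 2 * (2 * j + 1) := ⟨m / 4, by omega⟩
  rw [val_two_mul (by omega), val_odd]

lemma val_mod_two {m : ℕ} (h : m % 2 = 1) : padicValNat 2 m = 0 := by
  obtain ⟨j, rfl⟩ : ∃ j, m = 2 * j + 1 := ⟨m / 2, by omega⟩
  rw [val_odd]

lemma rv_seq (a : ℕ → ℕ) (h0 : a 0 = 5)
    (hs : ∀ k, a (k + 1) = if k % 4 ≤ 1 then 2 * a k else 2 * a k - 1)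
    {t : ℝ} (ht : t < -2) (k : ℕ) :
    (t ^ 2 - 1) * (t + 2) * rv t (a k) = t ^ (k + 3) * (t ^ 2 + 3 * t + 1) -
      if k % 2 = 0 then t ^ 2 + 2 * t + 2 else 3 * t + 2 := by
  have htm : t - 2 ≠ 0 := by linarith only [ht]
  have htp : t + 2 ≠ 0 := by linarith
  have hq0 := qv_zero htm
  have hq1 := qv_one htm htp
  induction k with
  | zero =>
    have hr2 : rv t 2 = 1 := by
      rw [rv_rec t le_rfl]; norm_num [rv_one, hq0]
    have hr3 : rv t 3 = t + 1 := by
      rw [rv_rec t (by norm_num)]; norm_num [hr2, hq0]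
    have hv : padicValNat 2 2 = 1 := padicValNat.self (by norm_num)
    rw [h0, rv_rec t (by norm_num)]
    norm_num [hr3, hv, hq1]
    field_simp
    ring
  | succ k ih =>
    obtain ⟨i0, i1, i2, i3, i4⟩ := seq_inv a h0 hs k
    have hk := hs k
    have e1 : (a (k + 1) + 1) / 2 = a k := by split_ifs at hk <;> omega
    rw [rv_rec t (n := a (k + 1)) (by split_ifs at hk <;> omega), e1]
    rcases Nat.mod_two_eq_zero_or_one k with h | h
    · have e2 : padicValNat 2 (a (k + 1) / 2) = 0 :=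
        val_mod_two (by clear * - a k i1 i2 i3 i4 e1 h hk i0; split_ifs at hk <;> omega)
      rw [e2, hq0, if_neg (by omega)]
      rw [if_pos h] at ih
      linear_combination t * ih
    · have e2 : padicValNat 2 (a (k + 1) / 2) = 1 :=
        val_mod_four (by clear * - a k i2 i3 i4 e1 h hk i0; split_ifs at hk <;> omega)
      rw [e2, hq1, if_pos (by omega)]
      rw [if_neg (by omega)] at ih
      have : (t ^ 2 - 1) * (t + 2) * (2 / (t + 2)) = 2 * (t ^ 2 - 1) := by field_simp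
      linear_combination t * ih + this

theorem exists_root (a : ℕ → ℕ) (h0 : a 0 = 5)
    (hs : ∀ k, a (k + 1) = if k % 4 ≤ 1 then 2 * a k else 2 * a k - 1)
    {ε : ℝ} (hε : 0 < ε) : ∀ᶠ k in Filter.atTop, ∃ t : ℝ, t < -2 ∧ rv t (a k) = 0 ∧
      -((3 + √5) / 2) < t ∧ t < -((3 + √5) / 2) + ε := by
  obtain ⟨M, hM, hM2, hMl, hMu⟩ := M_facts
  rw [← hM]
  -- the right end point `-x`
  set δ := min ε (1 / 2) with hδ
  have hδ0 : 0 < δ := lt_min hε (by norm_num)
  have hδ1 : δ ≤ 1 / 2 := min_le_right _ _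
  have hδ2 : δ ≤ ε := min_le_left _ _
  set x := M - δ with hx
  have hx2 : 2 < x := by linarith only [hMl, hMu, hδ1]
  have hneg : 0 < -(x ^ 2 - 3 * x + 1) := by clear * - x M δ hM2 hMl hδ0 hMu hδ1; linarith only [hM2, hMl, hδ0, hMu, hδ1, mul_pos_of_neg_of_neg (Mathlib.Tactic.Linarith.sub_neg_of_lt hMl) (Mathlib.Tactic.Linarith.sub_neg_of_lt hδ0), mul_pos_of_neg_of_neg (Mathlib.Tactic.Linarith.sub_neg_of_lt hMu) (Mathlib.Tactic.Linarith.sub_neg_of_lt hδ0), mul_nonneg_of_nonpos_of_nonpos (le_of_lt (Mathlib.Tactic.Linarith.sub_neg_of_lt hδ0)) (Mathlib.Tactic.Linarith.sub_nonpos_of_le hδ1)]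
  have hlim : Filter.Tendsto (fun k : ℕ => x ^ k) Filter.atTop Filter.atTop :=
    tendsto_pow_atTop_atTop_of_one_lt (by linarith only [hMu, hδ0, hx2])
  filter_upwards [hlim.eventually_ge_atTop (10 / -(x ^ 2 - 3 * x + 1))] with k hk
  rw [div_le_iff₀ hneg] at hk
  have hx3 : 8 ≤ x ^ 3 := by (refine le_of_not_gt fun h_nl => ?_; linarith only [h_nl, hM2, hδ1, hMl, hMu, hδ0, hx2, mul_nonneg_of_nonpos_of_nonpos (Mathlib.Tactic.Linarith.sub_nonpos_of_le (sq_nonneg x)) (le_of_lt (Mathlib.Tactic.Linarith.sub_neg_of_lt hMl)), mul_nonneg_of_nonpos_of_nonpos (Mathlib.Tactic.Linarith.sub_nonpos_of_le (sq_nonneg x)) (Mathlib.Tactic.Linarith.sub_nonpos_of_le hδ1), mul_pos_of_neg_of_neg (Mathlib.Tactic.Linarith.sub_neg_of_lt hMl) (Mathlib.Tactic.Linarith.sub_neg_of_lt hMu), mul_pos_of_neg_of_neg (Mathlib.Tactic.Linarith.sub_neg_of_lt hMl) (Mathlib.Tactic.Linarith.sub_neg_of_lt hδ0), mul_pos_of_neg_of_neg (Mathlib.Tactic.Linarith.sub_neg_of_lt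 hMl) (Mathlib.Tactic.Linarith.sub_neg_of_lt hx2), mul_pos_of_neg_of_neg (Mathlib.Tactic.Linarith.sub_neg_of_lt hMl) (Mathlib.Tactic.Linarith.sub_neg_of_lt h_nl), mul_pos_of_neg_of_neg (Mathlib.Tactic.Linarith.sub_neg_of_lt hMu) (Mathlib.Tactic.Linarith.sub_neg_of_lt h_nl), mul_pos_of_neg_of_neg (Mathlib.Tactic.Linarith.sub_neg_of_lt hδ0) (Mathlib.Tactic.Linarith.sub_neg_of_lt hδ0)])
  have hbig : 80 ≤ x ^ (k + 3) * -(x ^ 2 - 3 * x + 1) := by
    clear * - x k M δ hk hx3 hMu hδ0 hx2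
    rw [pow_add]; (refine le_of_not_gt fun h_nl => ?_; linarith only [h_nl, hk, hx3, hMu, hδ0, hx2, mul_pos_of_neg_of_neg (Mathlib.Tactic.Linarith.sub_neg_of_lt hMu) (Mathlib.Tactic.Linarith.sub_neg_of_lt h_nl), mul_pos_of_neg_of_neg (Mathlib.Tactic.Linarith.sub_neg_of_lt hδ0) (Mathlib.Tactic.Linarith.sub_neg_of_lt h_nl), mul_pos_of_neg_of_neg (Mathlib.Tactic.Linarith.sub_neg_of_lt hx2) (Mathlib.Tactic.Linarith.sub_neg_of_lt h_nl), mul_nonneg_of_nonpos_of_nonpos (Mathlib.Tactic.Linarith.sub_nonpos_of_le hk) (Mathlib.Tactic.Linarith.sub_nonpos_of_le hx3)])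
  let g : ℝ → ℝ := fun t => t ^ (k + 3) * (t ^ 2 + 3 * t + 1) -
      if k % 2 = 0 then t ^ 2 + 2 * t + 2 else 3 * t + 2
  have hg : Continuous g := by
    simp only [g]; split_ifs <;> fun_prop
  have hle : -M ≤ -x := by linarith only [hδ0]
  have hroot : ∃ t ∈ Set.Ioo (-M) (-x), g t = 0 := by
    clear * - k M x g a hle hg hM2 δ hMu hδ0 hx2 hneg hbig
    rcases Nat.mod_two_eq_zero_or_one k with h | h
    · have hodd : Odd (k + 3) := by rw [Nat.odd_iff]; omega
      refine intermediate_value_Ioo hle hg.continuousOn ⟨?_, ?_⟩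
      · simp only [g, if_pos h]
        rw [show (-M) ^ 2 + 3 * -M + 1 = 0 by linarith only [hM2]]; linarith only [hM2, hMu, hδ0, hx2]
      · simp only [g, if_pos h]
        rw [hodd.neg_pow]; linarith only [hMu, hδ0, hx2, hneg, hbig]
    · have heven : Even (k + 3) := by rw [Nat.even_iff]; omega
      refine intermediate_value_Ioo' hle hg.continuousOn ⟨?_, ?_⟩
      · simp only [g, if_neg (show ¬ k % 2 = 0 by omega)]
        rw [heven.neg_pow]; linarith only [hMu, hδ0, hx2, hbig]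
      · simp only [g, if_neg (show ¬ k % 2 = 0 by omega)]
        rw [show (-M) ^ 2 + 3 * -M + 1 = 0 by linarith only [hM2]]; linarith only [hMu, hδ0, hx2]
  obtain ⟨t, ⟨ht1, ht2⟩, ht⟩ := hroot
  have ht3 : t < -2 := by linarith only [hx2, ht2]
  refine ⟨t, ht3, ?_, ht1, by linarith only [hδ2, ht2]⟩
  have := rv_seq a h0 hs ht3 k
  change _ = g t at this
  rw [ht] at this
  have hne : (t ^ 2 - 1) * (t + 2) ≠ 0 := mul_ne_zero (by clear * - t x δ M hδ1 hx3 hMu hδ0 ht2 ht1 hx2; nlinarith) (by linarith only [hx2, ht2])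
  exact (mul_eq_zero.1 this).resolve_left hne

end Pool.Agent.Work.MP_9fc12a_nt
end
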